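import Pool.Agent.Helper47.CV.E7c

set_option autoImplicit false

namespace Pool.Agent.Helper36.CV

open Complex Filter Topology MeasureTheory Set

lemma e7_n1 {Hm Hp : ℝ} {C : Set ℝ} (cd : CD Hm Hp C) (V : Gap cd)
    (hi : Integrable (fun t => vf cd t / (|qr V.a V.b t| * |t - V.c|))) (r r' : ℝ) (h : r ≤ r') :
    n1 V r ≤ n1 V r' ∧ n2 V r ≤ n2 V r' := by
  have hsub : Icc (V.c - r) (V.c + r) ⊆ Icc (V.c - r') (V.c + r') := Icc_subset_Icc (by linarith) (by linarith)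
  constructor
  · unfold n1
    apply setIntegral_mono_set (e7_integrable cd V hi _ _)
    · exact ae_of_all _ (fun t => div_nonneg (cd.im_nonneg t) (abs_nonneg _))
    · exact HasSubset.Subset.eventuallyLE hsub
  · unfold n2
    apply setIntegral_mono_set hi.integrableOn
    · exact ae_of_all _ (fun t => div_nonneg (cd.im_nonneg t) (mul_nonneg (abs_nonneg _) (abs_nonneg _)))
    · exact HasSubset.Subset.eventuallyLE hsub

/-- position of a gap whose label is gam * U above the edge -/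
lemma e7_pos {Hm Hp : ℝ} {C : Set ℝ} (cd : CD Hm Hp C) (e : Edge cd) (ε K E A σ U : ℝ) (W : Gap cd)
    (h : EL cd e ε K E A) (hσp : ε ^ (4 / 5 : ℝ) = σ ^ 16) (hσ : 0 < σ) (hσ1 : σ ≤ 1 / 10 ^ 4)
    (hU : |U - A * Real.sqrt E| ≤ σ ^ 16 * (A * Real.sqrt E)) (hW : W.N = e.N + gam * U) :
    3 / 10 * E ≤ W.c - e.c ∧ W.c - e.c ≤ 9 / 20 * E := by
  have hE0 := h.pE
  have hA0 := h.pA
  have hsE : 0 < Real.sqrt E := Real.sqrt_pos.2 hE0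
  have haE : 0 < A * Real.sqrt E := by positivity
  have h16 := e7_small σ hσ hσ1 16 (by norm_num)
  have hUu : U ≤ 1001 / 1000 * (A * Real.sqrt E) := by
    have := (abs_le.1 hU).2
    nlinarith
  have hUl : 999 / 1000 * (A * Real.sqrt E) ≤ U := by
    have := (abs_le.1 hU).1
    nlinarith
  have hU0 : 0 < U := lt_of_lt_of_le (by positivity) hUl
  have hg1 := e7_gam_pos
  have hg2 := e7_gam_lt
  have hWa : Nf cd W.a = W.N := W.lab W.a ⟨le_refl _, W.lt.le⟩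
  have hWb : Nf cd W.b = W.N := W.lab W.b ⟨W.lt.le, le_refl _⟩
  have hWlo : e.N + 617 / 1000 * (A * Real.sqrt E) ≤ W.N := by rw [hW]; nlinarith
  have hWhi : W.N ≤ e.N + 62 / 100 * (A * Real.sqrt E) := by rw [hW]; nlinarith
  have hc : W.c = (W.a + W.b) / 2 := rfl
  have hlt := W.lt
  constructor
  · have h1 := h.cr (e.c + 3 / 10 * E) (by linarith) (by linarith)
    have h2 : Real.sqrt (e.c + 3 / 10 * E - e.c) ≤ 548 / 1000 * Real.sqrt E := by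
      apply Real.sqrt_le_iff.2
      refine ⟨by positivity, ?_⟩
      rw [mul_pow, Real.sq_sqrt hE0.le]
      linarith
    have h3 := mul_le_mul_of_nonneg_left h2 hA0.le
    rw [hσp] at h1
    have h4 := (abs_le.1 h1).2
    have h5 : Nf cd (e.c + 3 / 10 * E) < W.N := by nlinarith
    have h6 : e.c + 3 / 10 * E < W.a := by
      by_contra hcon
      push Not at hcon
      have h7 : Nf cd W.a ≤ Nf cd (e.c + 3 / 10 * E) := cd.re_mono _ _ hcon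
      linarith
    rw [hc]; linarith
  · have h1 := h.cr (e.c + 9 / 20 * E) (by linarith) (by linarith)
    have h2 : 67 / 100 * Real.sqrt E ≤ Real.sqrt (e.c + 9 / 20 * E - e.c) := by
      apply Real.le_sqrt_of_sq_le
      rw [mul_pow, Real.sq_sqrt hE0.le]
      linarith
    have h3 := mul_le_mul_of_nonneg_left h2 hA0.le
    rw [hσp] at h1
    have h4 := (abs_le.1 h1).1
    have h5 : W.N < Nf cd (e.c + 9 / 20 * E) := by nlinarith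
    have h6 : W.b < e.c + 9 / 20 * E := by
      by_contra hcon
      push Not at hcon
      have h7 : Nf cd (e.c + 9 / 20 * E) ≤ Nf cd W.b := cd.re_mono _ _ hcon
      linarith
    rw [hc]; linarith

lemma e7_k3 (a b c σ : ℝ) (ha : 1 ≤ a) (hb : 1 ≤ b) (hc : 1 ≤ c) (hσ : 0 < σ) (h : a * b * c * σ ≤ 1 / 10 ^ 4) :
    a * b * σ ≤ 1 / 10 ^ 4 ∧ a * σ ≤ 1 / 10 ^ 4 ∧ b * σ ≤ 1 / 10 ^ 4 ∧ σ ≤ 1 / 10 ^ 4 := by
  have h1 : a * b * σ * 1 ≤ a * b * σ * c := mul_le_mul_of_nonneg_left hc (by positivity)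
  have h2 : a * b * σ ≤ 1 / 10 ^ 4 := by nlinarith
  have h3 : a * σ * 1 ≤ a * σ * b := mul_le_mul_of_nonneg_left hb (by positivity)
  have h4 : b * σ * 1 ≤ b * σ * a := mul_le_mul_of_nonneg_left ha (by positivity)
  have h5 : a * σ ≤ 1 / 10 ^ 4 := by nlinarith
  have h6 : 1 * σ ≤ a * σ := mul_le_mul_of_nonneg_right ha hσ.le
  refine ⟨h2, h5, by nlinarith, by linarith⟩

/-- the main estimates for the gap V -/
lemma e7_main {Hm Hp : ℝ} {C : Set ℝ} (cd : CD Hm Hp C) (h1 : ST_P1) (h2 : ST_P2) (h3 : ST_P3) (q4 : ST_Q4)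
    (K K3 K6 ε σ : ℝ) (hK : 1 ≤ K) (hK3 : 1 ≤ K3) (hK6 : 1 ≤ K6) (hPar : Par ε Hm Hp)
    (hHm : ε * (1 + 42 * ε) ≤ 4 * Real.sqrt 5 * Hm)
    (hσ : 0 < σ) (hεσ : ε = σ ^ 20) (hσK : K * K3 * K6 * σ ≤ 1 / 10 ^ 4)
    (hp45 : ε ^ (4 / 5 : ℝ) = σ ^ 16) (hp19 : ε ^ (19 / 10 : ℝ) = σ ^ 38)
    (e : Edge cd) (V : Gap cd) (U E A : ℝ) (hU0 : 0 < U) (hVN : V.N = e.N + U)
    (hUe : U * (|e.mu| + 1) ≤ ε ^ 2) (hm1 : 1 - U * (|e.mu| + 1) ≤ |V.mu| * U) (hm2 : |V.mu| * U ≤ 1 + U * (|e.mu| + 1))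
    (hHt : ∃ t ∈ Ioo V.a V.b, Hm ≤ |(V.m : ℝ)| * vf cd t)
    (hE : V.c - e.c = E) (h : EL cd e ε K E A)
    (q3 : ∀ (a b N R : ℝ), a ≤ b → b - a ≤ R → 0 < R → (∀ t ∈ Icc a b, Nf cd t = N) → (∀ t : ℝ, Nf cd t = N → t ∈ Icc a b) →
      (∀ t : ℝ, |t - (a + b) / 2| ≤ R → t ∉ Icc a b → vf cd t ≤ 3 * ε * |Nf cd t - N|) →
      (∀ z ∈ Uo, ‖z - ((a + b) / 2 : ℝ)‖ ≤ R / 4 →
        |((cd.f z - N) / qc a b z).arg| ≤ 3 * ε + ‖z - ((a + b) / 2 : ℝ)‖ / R) ∧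
      (∀ z₁ ∈ Uo, ∀ z₂ ∈ Uo, ‖z₁ - ((a + b) / 2 : ℝ)‖ ≤ R / 4 → ‖z₂ - ((a + b) / 2 : ℝ)‖ ≤ R / 4 →
        |Real.log ‖(cd.f z₁ - N) / qc a b z₁‖ - Real.log ‖(cd.f z₂ - N) / qc a b z₂‖| ≤
          K3 * (ε * (1 + Real.log (1 + ‖z₁ - z₂‖ / z₁.im) + Real.log (1 + ‖z₁ - z₂‖ / z₂.im)) + ‖z₁ - z₂‖ / R)) ∧
      (a < b → ∀ z ∈ Uo, ‖z - ((a + b) / 2 : ℝ)‖ ≤ R / 4 →
        |Real.log ‖(cd.f z - N) / qc a b z‖ - Real.log (KI cd a b ((a + b) / 2))| ≤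
          K3 * (ε * (1 + Real.log (1 + ‖z - ((a + b) / 2 : ℝ)‖ / z.im) + Real.log (1 + ‖z - ((a + b) / 2 : ℝ)‖ / (b - a)))
            + ‖z - ((a + b) / 2 : ℝ)‖ / R)))
    (q6 : ∀ (V : Gap cd), 1000 ≤ |V.mu| →
      ∫ t in Icc (V.c - V.s / (4 * ε)) (V.c + V.s / (4 * ε)), vf cd t / |V.q t| ≤ K6 * ε * V.s * V.kk ∧
      (∀ r : ℝ, 0 < r → r ≤ V.s / (4 * ε) → V.kk * r ≤ K6 * Yf cd V.c r))
    (e6 : ∀ V : Gap cd, 1000 ≤ |V.mu| → n2 V (V.s / (4 * ε)) ≤ ε ^ (19 / 10 : ℝ) * V.kk ∧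
      ∀ t ∈ Icc V.a V.b, vf cd t ≤ (1 + ε ^ (19 / 10 : ℝ)) * vf cd V.c) :
    |U - A * Real.sqrt E| ≤ σ ^ 16 * (A * Real.sqrt E) ∧
    |U - A * Real.sqrt E| ≤ σ ^ 37 * (A * Real.sqrt E) ∧ ε * (1 + 41 * ε) * E ≤ V.s := by
  have hε0 := hPar.1
  have hσKa : K * K3 * K6 * σ ≤ 1 / 10 ^ 4 := hσK
  obtain ⟨-, hKσ, hK3σ, hσ1⟩ := e7_k3 K K3 K6 σ hK hK3 hK6 hσ hσKa
  obtain ⟨hK3K6, -, -, -⟩ := e7_k3 K3 K6 K σ hK3 hK6 hK hσ (by linarith [mul_comm K (K3 * K6)] )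
  obtain ⟨hKK6, -, hK6σ, -⟩ := e7_k3 K K6 K3 σ hK hK6 hK3 hσ (by
    have : K * K6 * K3 * σ = K * K3 * K6 * σ := by ring
    rw [this]; exact hσKa)
  have hε4 : ε ≤ 1 / 10 ^ 4 := by rw [hεσ]; exact e7_small σ hσ hσ1 20 (by norm_num)
  have hε5 : ε ≤ 1 / 10 ^ 5 := by
    rw [hεσ]
    calc σ ^ 20 ≤ (1 / 10 ^ 4) ^ 20 := pow_le_pow_left₀ hσ.le hσ1 20
      _ ≤ 1 / 10 ^ 5 := by norm_num
  have hε2 : ε ^ 2 ≤ 1 / 10 ^ 5 := by nlinarith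
  have hUs : U ≤ 1 / 10 ^ 5 := by
    have : 0 ≤ |e.mu| := abs_nonneg _
    nlinarith
  have hmu : 1000 ≤ |V.mu| := by
    by_contra hc
    push Not at hc
    have : |V.mu| * U ≤ 1000 * U := mul_le_mul_of_nonneg_right hc.le hU0.le
    linarith
  obtain ⟨hn1, hkY⟩ := q6 V hmu
  obtain ⟨hn2, hvt⟩ := e6 V hmu
  obtain ⟨-, -, -, hP4, -, -, hlev, -⟩ := h2 Hm Hp C cd hPar.2.1
  obtain ⟨-, -, -, hheight, hkk, hkk0, hv0⟩ := hP4 V
  have hs : 0 < V.s := by unfold Gap.s; linarith [V.lt]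
  have hskk : V.s * V.kk = 2 * vf cd V.c := by rw [hkk]; field_simp
  have hs5 : 0 < Real.sqrt 5 := Real.sqrt_pos.2 (by norm_num)
  have hmuabs : |V.mu| = Real.sqrt 5 * |(V.m : ℝ)| := by
    unfold Gap.mu; rw [abs_mul, abs_of_pos hs5]
  have hcmem : V.c ∈ Icc V.a V.b := ⟨by unfold Gap.c; linarith [V.lt], by unfold Gap.c; linarith [V.lt]⟩
  have hV3 : Real.sqrt 5 * Hm ≤ |V.mu| * ((1 + σ ^ 38) * vf cd V.c) := by
    obtain ⟨t, ht, hHt⟩ := hHt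
    have h4 := hvt t ⟨ht.1.le, ht.2.le⟩
    rw [hp19] at h4
    have h5 : |(V.m : ℝ)| * vf cd t ≤ |(V.m : ℝ)| * ((1 + σ ^ 38) * vf cd V.c) :=
      mul_le_mul_of_nonneg_left h4 (abs_nonneg _)
    have h6 := mul_le_mul_of_nonneg_left (hHt.trans h5) hs5.le
    rw [hmuabs]; linarith
  have hV4 : |V.mu| * vf cd V.c ≤ Real.sqrt 5 * Hp := by
    have h4 := mul_le_mul_of_nonneg_left (hheight V.c hcmem) hs5.le
    rw [hmuabs]; linarith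
  obtain ⟨hvA, hvlo, hvhi⟩ := e7_v ε σ U |V.mu| (vf cd V.c) (Real.sqrt 5 * Hm) (Real.sqrt 5 * Hp) hεσ hσ hσ1 hU0 hv0
    (abs_nonneg _) (by linarith) (by linarith) (by linarith) (by linarith [hPar.2.2]) hV3 hV4
  obtain ⟨hcr, hLW⟩ := e7_lw cd e ε K E A σ V h hp45 hσ hσ1 hE U hVN hU0 (by linarith) (by linarith)
  obtain ⟨hY1, hY2⟩ := e7_Ylow cd h3 e ε K E A σ V h hp45 (by linarith) hE
  have hE0 := h.pE
  have hA0 := h.pA
  have hsE : 0 < Real.sqrt E := Real.sqrt_pos.2 hE0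
  obtain ⟨κ, hκ⟩ : ∃ κ : ℝ, κ = A / Real.sqrt E := ⟨_, rfl⟩
  have hκ0 : 0 < κ := by rw [hκ]; positivity
  have hκE : A * Real.sqrt E = κ * E := by
    rw [hκ, div_mul_eq_mul_div, eq_div_iff hsE.ne', mul_assoc, Real.mul_self_sqrt hE0.le]
  rw [hκE] at hcr hY1
  have hκE0 : 0 < κ * E := by positivity
  have h16 := e7_small σ hσ hσ1 16 (by norm_num)
  have hUl : 999 / 1000 * (κ * E) ≤ U := by
    have := (abs_le.1 hcr).1
    nlinarith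
  have hs1 : V.s ≤ 105 / 100 * ε * E := e7_s1 ε σ E κ U V.s V.kk (vf cd V.c) _ hεσ hσ hσ1 hE0 hκ0 hs
    (by have := (abs_le.1 hcr).2; linarith) hskk hvhi hY1 hY2
  have hs2 : 4 * ε * E ≤ 5 * K6 * V.s := by
    apply e7_s2 cd h1 e ε K E A σ K6 U (vf cd V.c) V h hp45 hε0 _ hK6 hσ hσ1 _ hE (by rw [hκE]; exact hUl) hvlo hskk hkY
    · have h4 : ε = σ * σ ^ 19 := by rw [hεσ]; ring
      rw [h4]
      have h5 : (K6 * σ) * σ ^ 19 ≤ (K6 * σ) * 1 :=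
        mul_le_mul_of_nonneg_left (pow_le_one₀ hσ.le (by linarith)) (by positivity)
      linarith
    · have h5 : (K6 * σ) * σ ^ 15 ≤ (K6 * σ) * 1 :=
        mul_le_mul_of_nonneg_left (pow_le_one₀ hσ.le (by linarith)) (by positivity)
      have h6 : K6 * σ ^ 16 = (K6 * σ) * σ ^ 15 := by ring
      linarith
  have hQ3 := q3 V.a V.b V.N (17 / 20 * E) V.lt.le (by
      have : V.b - V.a = V.s := rfl
      rw [this]
      have : ε * E ≤ 1 / 10 ^ 4 * E := mul_le_mul_of_nonneg_right hε4 hE0.le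
      linarith) (by positivity) V.lab (hlev V) (by
      intro t ht htn
      have h4 := hLW t ht
      exact ((q4 ε Hm Hp C cd hPar hε5).2.2.2 V t h4).2.2.1 htn)
  obtain ⟨hqa, -, hqc⟩ := hQ3
  have hkk34 : V.kk ≤ 3 / 4 * κ := by
    rw [hκ]
    exact e7_kk cd e ε K E A σ K3 K6 V h hp45 hεσ hσ hσ1 hK3 hK6 hK3K6 hE hs2 hkk0 hqa (hqc V.lt)
  have hs3 : 4 / 10 * ε * E ≤ V.s := by
    have h4 : V.s * V.kk ≤ V.s * (3 / 4 * κ) := mul_le_mul_of_nonneg_left hkk34 hs.le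
    have h5 : 2 * (249 / 1000 * ε * (999 / 1000 * (κ * E))) ≤ V.s * (3 / 4 * κ) := by
      have h6 : 249 / 1000 * ε * (999 / 1000 * (κ * E)) ≤ 249 / 1000 * ε * U :=
        mul_le_mul_of_nonneg_left hUl (by positivity)
      linarith
    have h7 : 4 / 10 * ε * E * κ ≤ V.s * κ := by
      have : 0 < ε * (κ * E) := by positivity
      linarith
    exact le_of_mul_le_mul_right h7 hκ0
  have hrr : E / 10 ≤ V.s / (4 * ε) := by
    rw [le_div_iff₀ (by positivity)]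
    linarith
  have hi := ((h3 Hm Hp C cd V.a V.b V.N V.lt V.lab).1 V.c ⟨by unfold Gap.c; linarith [V.lt], by unfold Gap.c; linarith [V.lt]⟩).1
  obtain ⟨hm1', hm2'⟩ := e7_n1 cd V hi _ _ hrr
  have hl := h.law V (by
      have : V.b - V.a = V.s := rfl
      have h5 : V.c = (V.a + V.b) / 2 := rfl
      have : ε * E ≤ 1 / 10 ^ 4 * E := mul_le_mul_of_nonneg_right hε4 hE0.le
      linarith) (by
      have : V.b - V.a = V.s := rfl
      have h5 : V.c = (V.a + V.b) / 2 := rfl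
      have : ε * E ≤ 1 / 10 ^ 4 * E := mul_le_mul_of_nonneg_right hε4 hE0.le
      linarith) (by
      have : 0 < ε * E := by positivity
      linarith)
  obtain ⟨hl1, hl2⟩ := hl
  rw [hE, hVN, hp19] at hl1 hl2
  have hx1 : e.N + U - e.N - A * Real.sqrt E = U - κ * E := by rw [← hκE]; ring
  have hx2 : σ ^ 38 * A * Real.sqrt E = σ ^ 38 * (κ * E) := by rw [← hκE]; ring
  have hx3 : e.N + U - e.N = U := by ring
  have hx4 : σ ^ 38 * A / Real.sqrt E = σ ^ 38 * κ := by rw [hκ]; ring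
  rw [hx1, hx2] at hl1
  rw [hx3, hx4] at hl2
  have hfin := e7_fin ε σ K K6 E κ U V.s V.kk (vf cd V.c) (n1 V (E / 10)) (n2 V (E / 10)) hεσ hσ hσ1 hK hK6 hKK6 hKσ
    hE0 hκ0 hs hkk0 hv0 hU0 hcr hskk hvhi hvA hkk34 (hm1'.trans hn1) (by rw [← hp19]; exact hm2'.trans hn2) hl1 hl2
  rw [hκE]
  exact ⟨hcr, hfin⟩

/-- E7 -/
theorem st_E7 (h1 : ST_P1) (h2 : ST_P2) (h3 : ST_P3) (q3 : ST_Q3) (q4 : ST_Q4) (q6 : ST_Q6) (e1 : ST_E1)
    (e6 : ST_E6) : ST_E7 := by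
  intro K hK
  obtain ⟨K3, hK3, q3⟩ := q3
  obtain ⟨K6, ε6, hK6, hε6, q6⟩ := q6
  obtain ⟨ε7, hε7, e6⟩ := e6
  obtain ⟨B, hB⟩ : ∃ B : ℝ, B = 10 ^ 4 * (K * K3 * K6) := ⟨_, rfl⟩
  have hK0 : 0 < K := by linarith
  have hK30 : 0 < K3 := by linarith
  have hK60 : 0 < K6 := by linarith
  have hB0 : 0 < B := by rw [hB]; positivity
  refine ⟨min (min ε6 ε7) ((1 / B) ^ 20), lt_min (lt_min hε6 hε7) (by positivity), ?_⟩
  intro ε Hm Hp C cd hpar hεle e hEL η hη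
  obtain ⟨hε0, hHp, hHm⟩ := hpar
  have hε6' : ε ≤ ε6 := hεle.trans ((min_le_left _ _).trans (min_le_left _ _))
  have hε7' : ε ≤ ε7 := hεle.trans ((min_le_left _ _).trans (min_le_right _ _))
  have hs5 : 0 < Real.sqrt 5 := Real.sqrt_pos.2 (by norm_num)
  have hHm0 : 0 < Hm := by
    have h4 : 0 < ε * (1 + 42 * ε) := by positivity
    have h5 : 0 < 4 * Real.sqrt 5 * Hm := lt_of_lt_of_le h4 hHm
    exact pos_of_mul_pos_right h5 (by positivity)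
  have hPar : Par ε Hm Hp := ⟨hε0, hHm0, hHp⟩
  obtain ⟨σ, hσdef⟩ : ∃ σ : ℝ, σ = ε ^ (1 / 20 : ℝ) := ⟨_, rfl⟩
  have hσ : 0 < σ := by rw [hσdef]; exact Real.rpow_pos_of_pos hε0 _
  have hεσ : ε = σ ^ 20 := by
    have := e7_pow ε hε0 20 1 (by norm_num)
    rw [Real.rpow_one] at this
    rw [hσdef]; exact this
  have hσB : σ ≤ 1 / B := by
    by_contra hc
    push Not at hc
    have h4 := pow_lt_pow_left₀ hc (by positivity) (by norm_num : 20 ≠ 0)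
    rw [← hεσ] at h4
    linarith [hεle.trans (min_le_right _ _)]
  have hσK : K * K3 * K6 * σ ≤ 1 / 10 ^ 4 := by
    rw [le_div_iff₀ hB0, hB] at hσB
    rw [le_div_iff₀ (by norm_num)]
    linarith
  obtain ⟨-, -, -, hσ1⟩ := e7_k3 K K3 K6 σ hK hK3 hK6 hσ hσK
  have hp45 : ε ^ (4 / 5 : ℝ) = σ ^ 16 := by rw [hσdef]; exact e7_pow ε hε0 16 _ (by norm_num)
  have hp19 : ε ^ (19 / 10 : ℝ) = σ ^ 38 := by rw [hσdef]; exact e7_pow ε hε0 38 _ (by norm_num)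
  have hp37 : ε ^ (37 / 20 : ℝ) = σ ^ 37 := by rw [hσdef]; exact e7_pow ε hε0 37 _ (by norm_num)
  have hε4 : ε ≤ 1 / 10 ^ 4 := by rw [hεσ]; exact e7_small σ hσ hσ1 20 (by norm_num)
  obtain ⟨E0, hE0, hEL⟩ := hEL
  obtain ⟨-, -, he3, -, -⟩ := e1 Hm Hp C cd hHm0
  obtain ⟨η', hη'⟩ : ∃ η' : ℝ, η' = min E0 η / 2 := ⟨_, rfl⟩
  have hmin0 : 0 < min E0 η := lt_min hE0 hη
  have hη0 : 0 < η' := by rw [hη']; positivity
  have hη1 : η' < E0 := by rw [hη']; linarith [min_le_left E0 η]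
  have hη2 : η' < η := by rw [hη']; linarith [min_le_right E0 η]
  have hlt := he3 e (e.c + η') (by linarith)
  have hNlt : e.N < 1 := e.lt1
  have hτ : 0 < min (min (1 - e.N) (Nf cd (e.c + η') - e.N)) (ε ^ 2 / (|e.mu| + 1)) := by
    refine lt_min (lt_min (by linarith) (by linarith)) (by positivity)
  have hg0 : 0 < gam := by linarith [e7_gam_pos]
  have hg1 : gam < 1 := by linarith [e7_gam_lt]
  obtain ⟨n0, hn0⟩ := exists_pow_lt_of_lt_one hτ hg1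
  refine ⟨n0, fun n hn => ?_⟩
  have key : ∀ k : ℕ, n0 ≤ k → gam ^ k < 1 - e.N ∧ gam ^ k < Nf cd (e.c + η') - e.N ∧ gam ^ k * (|e.mu| + 1) ≤ ε ^ 2 := by
    intro k hk
    have h4 : gam ^ k < min (min (1 - e.N) (Nf cd (e.c + η') - e.N)) (ε ^ 2 / (|e.mu| + 1)) :=
      lt_of_le_of_lt (pow_le_pow_of_le_one hg0.le hg1.le hk) hn0
    have h5 := lt_min_iff.1 h4
    have h6 := lt_min_iff.1 h5.1
    refine ⟨h6.1, h6.2, ?_⟩
    have h7 := h5.2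
    rw [lt_div_iff₀ (by positivity)] at h7
    exact h7.le
  have hε2 : ε ^ 2 ≤ 1 / 4 := by nlinarith
  obtain ⟨ha1, ha2, ha3⟩ := key n hn
  obtain ⟨hb1, hb2, hb3⟩ := key (n + 1) (by omega)
  obtain ⟨V, hVN, hVm1, hVm2, hVt, hVa⟩ := e7_gap cd h2 hHm0 e n (by linarith) (by linarith)
  obtain ⟨V', hVN', -, -, -, -⟩ := e7_gap cd h2 hHm0 e (n + 1) (by linarith) (by linarith)
  have hVb : V.b < e.c + η' := by
    by_contra hc
    push Not at hc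
    have h4 : Nf cd (e.c + η') ≤ Nf cd V.b := cd.re_mono _ _ hc
    have h5 : Nf cd V.b = V.N := V.lab V.b ⟨V.lt.le, le_refl _⟩
    linarith
  have hVc : V.c = (V.a + V.b) / 2 := rfl
  have hVlt := V.lt
  have hE1 : 0 < V.c - e.c := by rw [hVc]; linarith
  have hE2 : V.c - e.c ≤ E0 := by rw [hVc]; linarith
  obtain ⟨A, hA⟩ := hEL (V.c - e.c) hE1 hE2
  have hU0 : 0 < gam ^ n := pow_pos hg0 n
  have hmain := e7_main cd h1 h2 h3 q4 K K3 K6 ε σ hK hK3 hK6 hPar hHm hσ hεσ hσK hp45 hp19 e V (gam ^ n)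
    (V.c - e.c) A hU0 hVN ha3 hVm1 hVm2 hVt rfl hA (q3 ε Hm Hp C cd hHm0 hε0 (by linarith))
    (q6 ε Hm Hp C cd hPar hε6') (e6 ε Hm Hp C cd hPar hε7')
  obtain ⟨hr1, hr2, hr3⟩ := hmain
  have hpos := e7_pos cd e ε K (V.c - e.c) A σ (gam ^ n) V' hA hp45 hσ hσ1 hr1 (by rw [hVN', pow_succ]; ring)
  refine ⟨V, V', A, hVN, hVN', by linarith, by rw [hVc]; linarith, hA, ha3, ?_, hr3, hpos.1, hpos.2⟩
  rw [hp37]
  linarith

end Pool.Agent.Helper36.CV
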