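import Pool.Agent.Helper36.CV.StmtsE

set_option autoImplicit false

namespace Pool.Agent.Helper36.CV

open Complex Filter Topology MeasureTheory Set

lemma e7_s5 : Real.sqrt 5 ^ 2 = 5 := Real.sq_sqrt (by norm_num)

lemma e7_s5a : (2.236 : ℝ) < Real.sqrt 5 := by
  rw [Real.lt_sqrt (by norm_num)]; norm_num

lemma e7_s5b : Real.sqrt 5 < (2.2361 : ℝ) := by
  rw [Real.sqrt_lt' (by norm_num)]; norm_num

lemma e7_gam_pos : (0.618 : ℝ) ≤ gam := by
  have := e7_s5a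
  unfold gam; linarith

lemma e7_gam_lt : gam ≤ 0.6181 := by
  have := e7_s5b
  unfold gam; linarith

lemma e7_gam_sq : gam ^ 2 = 1 - gam := by
  have := e7_s5
  unfold gam; linarith

lemma e7_phi_sq : phi ^ 2 = phi + 1 := by
  have := e7_s5
  unfold phi; linarith

lemma e7_gp : gam * phi = 1 := by
  have := e7_s5
  unfold phi gam; linarith

lemma e7_sum : gam + phi = Real.sqrt 5 := by
  unfold phi gam; ring

lemma e7_z (n : ℕ) : ∃ a b : ℤ, (a : ℝ) + b * gam = gam ^ n ∧ (a : ℝ) - b * phi = (-phi) ^ n := by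
  induction n with
  | zero => exact ⟨1, 0, by simp, by simp⟩
  | succ n ih =>
    obtain ⟨a, b, h1, h2⟩ := ih
    refine ⟨b, a - b, ?_, ?_⟩
    · rw [pow_succ, ← h1]; push_cast
      linear_combination (-(b : ℝ)) * e7_gam_sq
    · rw [pow_succ, ← h2]; push_cast
      linear_combination (-(b : ℝ)) * e7_phi_sq

lemma e7_gap {Hm Hp : ℝ} {C : Set ℝ} (cd : CD Hm Hp C) (h2 : ST_P2) (hHm : 0 < Hm) (e : Edge cd) (n : ℕ)
    (hs : gam ^ n * (|e.mu| + 1) ≤ 1 / 4) (h1 : e.N + gam ^ n < 1) :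
    ∃ V : Gap cd, V.N = e.N + gam ^ n ∧ 1 - gam ^ n * (|e.mu| + 1) ≤ |V.mu| * gam ^ n ∧
      |V.mu| * gam ^ n ≤ 1 + gam ^ n * (|e.mu| + 1) ∧ (∃ t ∈ Ioo V.a V.b, Hm ≤ |(V.m : ℝ)| * vf cd t) ∧
      e.c < V.a := by
  obtain ⟨hP1, -, -, -, -, -, -, -, -, hex, -, -⟩ := h2 Hm Hp C cd hHm
  obtain ⟨a, b, ha, hb⟩ := e7_z n
  have hg0 : 0 < gam := by linarith [e7_gam_pos]
  have hg1 : gam < 1 := by linarith [e7_gam_lt]
  have hU0 : 0 < gam ^ n := pow_pos hg0 n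
  have hU1 : gam ^ n ≤ 1 := pow_le_one₀ hg0.le hg1.le
  have hphi0 : 0 < phi := by unfold phi; positivity
  have hprod : gam ^ n * phi ^ n = 1 := by rw [← mul_pow, e7_gp, one_pow]
  have hN : e.N = e.n + e.m * gam := e.lab
  have hlab : ((e.n + a : ℤ) : ℝ) + ((e.m + b : ℤ) : ℝ) * gam = e.N + gam ^ n := by
    push_cast; rw [hN, ← ha]; ring
  have hM : Real.sqrt 5 * ((e.m + b : ℤ) : ℝ) = e.mu + gam ^ n - (-phi) ^ n := by
    push_cast; unfold Edge.mu; rw [← ha, ← hb, ← e7_sum]; ring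
  have habs : |(-phi) ^ n| = phi ^ n := by rw [abs_pow, abs_neg, abs_of_pos hphi0]
  have hlow : 1 - gam ^ n * (|e.mu| + 1) ≤ |Real.sqrt 5 * ((e.m + b : ℤ) : ℝ)| * gam ^ n := by
    rw [hM]
    have h3 : phi ^ n - (|e.mu| + gam ^ n) ≤ |e.mu + gam ^ n - (-phi) ^ n| := by
      have h4 : |(-phi) ^ n| ≤ |e.mu + gam ^ n - (-phi) ^ n| + |e.mu + gam ^ n| := by
        have := abs_sub_abs_le_abs_sub ((-phi) ^ n) (e.mu + gam ^ n)
        rw [abs_sub_comm] at this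
        linarith
      have h5 : |e.mu + gam ^ n| ≤ |e.mu| + gam ^ n := by
        have := abs_add_le e.mu (gam ^ n)
        rwa [abs_of_pos hU0] at this
      rw [habs] at h4
      linarith
    have h6 := mul_le_mul_of_nonneg_right h3 hU0.le
    have h7 : gam ^ n * gam ^ n ≤ gam ^ n := by nlinarith
    nlinarith
  have hup : |Real.sqrt 5 * ((e.m + b : ℤ) : ℝ)| * gam ^ n ≤ 1 + gam ^ n * (|e.mu| + 1) := by
    rw [hM]
    have h3 : |e.mu + gam ^ n - (-phi) ^ n| ≤ |e.mu| + gam ^ n + phi ^ n := by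
      have h4 := abs_sub (e.mu + gam ^ n) ((-phi) ^ n)
      have h5 : |e.mu + gam ^ n| ≤ |e.mu| + gam ^ n := by
        have := abs_add_le e.mu (gam ^ n)
        rwa [abs_of_pos hU0] at this
      rw [habs] at h4
      linarith
    have h6 := mul_le_mul_of_nonneg_right h3 hU0.le
    have h7 : gam ^ n * gam ^ n ≤ gam ^ n := by nlinarith
    nlinarith
  have hm0 : (e.m + b : ℤ) ≠ 0 := by
    intro h0
    rw [h0] at hlow
    simp only [Int.cast_zero, mul_zero, abs_zero, zero_mul] at hlow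
    linarith
  have hN0 : 0 ≤ e.N := (hP1 e.c).2.1
  obtain ⟨V, hVn, hVm, t, ht, hHt⟩ := hex (e.n + a) (e.m + b) hm0 (by rw [hlab]; linarith) (by rw [hlab]; exact h1)
  have hVN : V.N = e.N + gam ^ n := by
    unfold Gap.N; rw [hVn, hVm]; exact hlab
  have hVmu : V.mu = Real.sqrt 5 * ((e.m + b : ℤ) : ℝ) := by unfold Gap.mu; rw [hVm]
  refine ⟨V, hVN, by rw [hVmu]; exact hlow, by rw [hVmu]; exact hup, ⟨t, ht, by rw [hVm]; exact hHt⟩, ?_⟩
  by_contra hc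
  push Not at hc
  have h8 := cd.re_mono V.a e.c hc
  have h9 : Nf cd V.a = V.N := V.lab V.a ⟨le_refl _, V.lt.le⟩
  have h10 : Nf cd V.a ≤ Nf cd e.c := h8
  rw [h9, hVN] at h10
  have : e.N = Nf cd e.c := rfl
  linarith

/-- square root branch: value of qc above the centre -/
lemma e7_cpow (w : ℂ) (hw : 0 < w.im) : 0 < (w ^ (1 / 2 : ℂ)).re ∧ 0 < (w ^ (1 / 2 : ℂ)).im := by
  have hw0 : w ≠ 0 := by rintro rfl; simp at hw
  have harg0 : 0 < w.arg := by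
    have h := Complex.arg_nonneg_iff.2 hw.le
    rcases h.lt_or_eq with h | h
    · exact h
    · exact absurd (Complex.arg_eq_zero_iff.1 h.symm).2 hw.ne'
  have hargpi : w.arg < Real.pi := by
    rcases (Complex.arg_le_pi w).lt_or_eq with h | h
    · exact h
    · exact absurd (Complex.arg_eq_pi_iff.1 h).2 hw.ne'
  rw [Complex.cpow_def_of_ne_zero hw0]
  have h2 : Complex.log w * (1 / 2) = ((Real.log ‖w‖ / 2 : ℝ) : ℂ) + ((w.arg / 2 : ℝ) : ℂ) * I := by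
    rw [Complex.log]; push_cast; ring
  rw [h2, Complex.exp_add, Complex.exp_mul_I, ← Complex.ofReal_exp, ← Complex.ofReal_cos, ← Complex.ofReal_sin]
  constructor
  · rw [Complex.re_ofReal_mul]
    refine mul_pos (Real.exp_pos _) ?_
    simp only [Complex.add_re, Complex.ofReal_re, Complex.mul_re, Complex.ofReal_im, Complex.I_re, Complex.I_im]
    have : 0 < Real.cos (w.arg / 2) := Real.cos_pos_of_mem_Ioo ⟨by linarith [Real.pi_pos], by linarith⟩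
    linarith
  · rw [Complex.im_ofReal_mul]
    refine mul_pos (Real.exp_pos _) ?_
    simp only [Complex.add_im, Complex.ofReal_im, Complex.mul_im, Complex.ofReal_re, Complex.I_re, Complex.I_im]
    have : 0 < Real.sin (w.arg / 2) := Real.sin_pos_of_pos_of_lt_pi (by linarith) (by linarith)
    linarith

lemma e7_sqrt_sq (w : ℂ) : (w ^ (1 / 2 : ℂ)) * (w ^ (1 / 2 : ℂ)) = w := by
  by_cases hw : w = 0
  · subst hw; simp
  · rw [← Complex.cpow_add _ _ hw]; norm_num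

lemma e7_qc (a b y : ℝ) (hab : a < b) (hy : 0 < y) :
    qc a b ((((a + b) / 2 : ℝ) : ℂ) + (y : ℂ) * I) = ((Real.sqrt (y ^ 2 + (b - a) ^ 2 / 4) : ℝ) : ℂ) * I := by
  set z : ℂ := (((a + b) / 2 : ℝ) : ℂ) + (y : ℂ) * I with hz
  have h1 : 0 < (z - a).im := by simp [hz]; exact hy
  have h2 : 0 < (z - b).im := by simp [hz]; exact hy
  obtain ⟨h3, h4⟩ := e7_cpow _ h1
  obtain ⟨h5, h6⟩ := e7_cpow _ h2
  set p := qc a b z with hp
  have hpdef : p = (z - a) ^ (1 / 2 : ℂ) * (z - b) ^ (1 / 2 : ℂ) := rfl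
  have him : 0 < p.im := by
    rw [hpdef, Complex.mul_im]; positivity
  set r := Real.sqrt (y ^ 2 + (b - a) ^ 2 / 4) with hr
  have hr2 : r ^ 2 = y ^ 2 + (b - a) ^ 2 / 4 := Real.sq_sqrt (by positivity)
  have hr0 : 0 < r := Real.sqrt_pos.2 (by positivity)
  have hpp : p * p = (z - a) * (z - b) := by
    rw [hpdef]
    calc (z - ↑a) ^ (1 / 2 : ℂ) * (z - ↑b) ^ (1 / 2 : ℂ) * ((z - ↑a) ^ (1 / 2 : ℂ) * (z - ↑b) ^ (1 / 2 : ℂ))
        = ((z - ↑a) ^ (1 / 2 : ℂ) * (z - ↑a) ^ (1 / 2 : ℂ)) * ((z - ↑b) ^ (1 / 2 : ℂ) * (z - ↑b) ^ (1 / 2 : ℂ)) := by ring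
      _ = _ := by rw [e7_sqrt_sq, e7_sqrt_sq]
  have hzz : (z - a) * (z - b) = -((r ^ 2 : ℝ) : ℂ) := by
    rw [hr2, hz]; push_cast
    linear_combination ((y : ℂ) ^ 2) * Complex.I_sq
  have hfac : (p - (r : ℂ) * I) * (p + (r : ℂ) * I) = 0 := by
    have : (p - (r : ℂ) * I) * (p + (r : ℂ) * I) = p * p - (r : ℂ) ^ 2 * I ^ 2 := by ring
    rw [this, hpp, hzz, Complex.I_sq]; push_cast; ring
  rcases mul_eq_zero.1 hfac with h | h
  · exact sub_eq_zero.1 h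
  · exfalso
    have h7 : p = -((r : ℂ) * I) := eq_neg_of_add_eq_zero_left h
    rw [h7] at him
    simp at him
    linarith

lemma e7_integrable {Hm Hp : ℝ} {C : Set ℝ} (cd : CD Hm Hp C) (V : Gap cd)
    (hi : Integrable (fun t => vf cd t / (|qr V.a V.b t| * |t - V.c|))) (u w : ℝ) :
    IntegrableOn (fun t => vf cd t / |V.q t|) (Icc u w) := by
  have h1 : IntegrableOn (fun t => |t - V.c| * (vf cd t / (|qr V.a V.b t| * |t - V.c|))) (Icc u w) :=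
    IntegrableOn.continuousOn_mul (by fun_prop) hi.integrableOn isCompact_Icc
  refine h1.congr_fun_ae ?_
  have h2 : ∀ᵐ t : ℝ, t ≠ V.c := by
    rw [ae_iff]; simp
  filter_upwards [ae_restrict_of_ae h2] with t ht
  have h3 : |t - V.c| ≠ 0 := abs_ne_zero.2 (sub_ne_zero.2 ht)
  unfold Gap.q
  by_cases h4 : |qr V.a V.b t| = 0
  · rw [h4]; simp
  · field_simp

lemma e7_pow (ε : ℝ) (hε : 0 < ε) (k : ℕ) (r : ℝ) (hr : r = k / 20) : ε ^ r = (ε ^ (1 / 20 : ℝ)) ^ k := by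
  rw [← Real.rpow_natCast, ← Real.rpow_mul hε.le, hr]
  ring_nf


/-- crude bounds for v -/
lemma e7_v (ε σ U mu v H1 H2 : ℝ) (hε : ε = σ ^ 20) (hσ : 0 < σ) (hσ1 : σ ≤ 1 / 10 ^ 4) (hU : 0 < U) (hv : 0 < v)
    (hm0 : 0 ≤ mu)
    (h1 : 1 - ε ^ 2 ≤ mu * U) (h2 : mu * U ≤ 1 + ε ^ 2) (hH1 : ε * (1 + 42 * ε) ≤ 4 * H1) (hH2 : 4 * H2 ≤ ε * (1 + 98 * ε))
    (h3 : H1 ≤ mu * ((1 + σ ^ 38) * v)) (h4 : mu * v ≤ H2) :
    ε / 4 * (1 + 42 * ε) * U ≤ (1 + σ ^ 38) * (1 + σ ^ 40) * v ∧ 249 / 1000 * ε * U ≤ v ∧ v ≤ 251 / 1000 * ε * U := by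
  have hε0 : 0 < ε := by rw [hε]; positivity
  have hε1 : ε ≤ 1 / 10 ^ 5 := by
    rw [hε]
    calc σ ^ 20 ≤ (1 / 10 ^ 4) ^ 20 := pow_le_pow_left₀ hσ.le hσ1 20
      _ ≤ 1 / 10 ^ 5 := by norm_num
  have h38 : σ ^ 38 ≤ 1 / 10 ^ 5 := by
    calc σ ^ 38 ≤ (1 / 10 ^ 4) ^ 38 := pow_le_pow_left₀ hσ.le hσ1 38
      _ ≤ 1 / 10 ^ 5 := by norm_num
  have h40 : ε ^ 2 = σ ^ 40 := by rw [hε]; ring
  have h380 : 0 < σ ^ 38 := by positivity
  have hmv : 0 ≤ mu * v := by positivity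
  have hA : ε / 4 * (1 + 42 * ε) * U ≤ (1 + σ ^ 38) * (1 + σ ^ 40) * v := by
    have h5 : ε * (1 + 42 * ε) ≤ 4 * (mu * ((1 + σ ^ 38) * v)) := by linarith
    have h6 := mul_le_mul_of_nonneg_right h5 hU.le
    have h7 : 4 * (mu * ((1 + σ ^ 38) * v)) * U = 4 * ((1 + σ ^ 38) * v) * (mu * U) := by ring
    rw [h7] at h6
    have h8 : 4 * ((1 + σ ^ 38) * v) * (mu * U) ≤ 4 * ((1 + σ ^ 38) * v) * (1 + ε ^ 2) :=
      mul_le_mul_of_nonneg_left h2 (by positivity)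
    rw [h40] at h8
    nlinarith
  refine ⟨hA, ?_, ?_⟩
  · have h9 : (1 + σ ^ 38) * (1 + σ ^ 40) ≤ 1001 / 1000 := by
      rw [← h40]
      have : ε ^ 2 ≤ 1 / 10 ^ 5 := by nlinarith
      nlinarith
    have h10 : (1 + σ ^ 38) * (1 + σ ^ 40) * v ≤ 1001 / 1000 * v := mul_le_mul_of_nonneg_right h9 hv.le
    have h11 : ε / 4 * U ≤ ε / 4 * (1 + 42 * ε) * U := by
      apply mul_le_mul_of_nonneg_right _ hU.le
      nlinarith
    nlinarith
  · have h5 : 4 * (mu * v) ≤ ε * (1 + 98 * ε) := by linarith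
    have h6 := mul_le_mul_of_nonneg_right h5 hU.le
    have h7 : 4 * (mu * v) * U = 4 * v * (mu * U) := by ring
    rw [h7] at h6
    have h8 : 4 * v * (1 - ε ^ 2) ≤ 4 * v * (mu * U) := mul_le_mul_of_nonneg_left h1 (by positivity)
    have h9 : ε * (1 + 98 * ε) * U ≤ ε * U * (1001 / 1000) := by
      have : 0 < ε * U := by positivity
      nlinarith
    have h10 : ε ^ 2 ≤ 1 / 10 ^ 5 := by nlinarith
    nlinarith

lemma e7_small (σ : ℝ) (hσ : 0 < σ) (hσ1 : σ ≤ 1 / 10 ^ 4) (k : ℕ) (hk : 1 ≤ k) : σ ^ k ≤ 1 / 10 ^ 4 := by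
  calc σ ^ k ≤ σ ^ 1 := pow_le_pow_of_le_one hσ.le (by linarith) hk
    _ ≤ 1 / 10 ^ 4 := by simpa using hσ1

/-- upper bound for the size -/
lemma e7_s1 (ε σ E κ U s kk v Y : ℝ) (hε : ε = σ ^ 20) (hσ : 0 < σ) (hσ1 : σ ≤ 1 / 10 ^ 4) (hE : 0 < E) (hκ : 0 < κ)
    (hs : 0 < s) (hU1 : U ≤ (1 + σ ^ 16) * (κ * E)) (hskk : s * kk = 2 * v) (hv : v ≤ 251 / 1000 * ε * U)
    (hY : (2428 / 10000 - σ ^ 16) * (κ * E) ≤ Y) (hY2 : Y ≤ (E + s) / 2 * kk) : s ≤ 105 / 100 * ε * E := by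
  have hε0 : 0 < ε := by rw [hε]; positivity
  have hε1 : ε ≤ 1 / 10 ^ 4 := by rw [hε]; exact e7_small σ hσ hσ1 20 (by norm_num)
  have h16 := e7_small σ hσ hσ1 16 (by norm_num)
  have hκE : 0 < κ * E := by positivity
  have h1 : 2427 / 10000 * (κ * E) * s ≤ (E + s) * v := by
    have h2 : 2427 / 10000 * (κ * E) ≤ (E + s) / 2 * kk := by nlinarith
    have h3 := mul_le_mul_of_nonneg_right h2 hs.le
    have h4 : (E + s) / 2 * kk * s = (E + s) / 2 * (s * kk) := by ring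
    rw [h4, hskk] at h3
    linarith
  have h5 : (E + s) * v ≤ (E + s) * (2513 / 10000 * ε * (κ * E)) := by
    apply mul_le_mul_of_nonneg_left _ (by positivity)
    have h6 : 251 / 1000 * ε * U ≤ 251 / 1000 * ε * ((1 + σ ^ 16) * (κ * E)) :=
      mul_le_mul_of_nonneg_left hU1 (by positivity)
    have h7 : 251 / 1000 * ε * ((1 + σ ^ 16) * (κ * E)) ≤ 2513 / 10000 * ε * (κ * E) := by
      have : 0 < ε * (κ * E) := by positivity
      nlinarith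
    linarith
  have h8 : 2427 / 10000 * s ≤ (E + s) * (2513 / 10000 * ε) := by
    by_contra hc
    push Not at hc
    have := mul_lt_mul_of_pos_right hc hκE
    nlinarith
  nlinarith

lemma e7_prod (ε x y z : ℝ) (hε0 : 0 < ε) (hε1 : ε ≤ 1 / 10 ^ 4) (_hx : 0 ≤ x) (hy : 0 ≤ y) (hz : 0 ≤ z)
    (ha : x ≤ 1 / 10 ^ 4 * ε) (hb : y ≤ 1 / 10 ^ 4 * ε) (hc : z ≤ 1 / 10 ^ 4 * ε) :
    (1 + 1 / 1000 * x) * ((1 + y) * (1 + z)) ≤ 1 + ε / 100 := by
  have h1 : (1 + y) * (1 + z) ≤ (1 + 1 / 10 ^ 4 * ε) * (1 + 1 / 10 ^ 4 * ε) :=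
    mul_le_mul (by linarith) (by linarith) (by positivity) (by positivity)
  have h2 : (1 + 1 / 1000 * x) * ((1 + y) * (1 + z)) ≤ (1 + 1 / 10 ^ 4 * ε) * ((1 + 1 / 10 ^ 4 * ε) * (1 + 1 / 10 ^ 4 * ε)) :=
    mul_le_mul (by linarith) h1 (by positivity) (by positivity)
  refine h2.trans ?_
  have h3 : (1 + 1 / 10 ^ 4 * ε) * (1 + 1 / 10 ^ 4 * ε) ≤ 1 + 3 / 10 ^ 4 * ε := by nlinarith
  have h4 : (1 + 1 / 10 ^ 4 * ε) * ((1 + 1 / 10 ^ 4 * ε) * (1 + 1 / 10 ^ 4 * ε)) ≤ (1 + 1 / 10 ^ 4 * ε) * (1 + 3 / 10 ^ 4 * ε) :=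
    mul_le_mul_of_nonneg_left h3 (by positivity)
  refine h4.trans ?_
  nlinarith

/-- final numeric step -/
lemma e7_fin (ε σ K K6 E κ U s kk v n1v n2v : ℝ) (hε : ε = σ ^ 20) (hσ : 0 < σ) (hσ1 : σ ≤ 1 / 10 ^ 4)
    (hK : 1 ≤ K) (hK6 : 1 ≤ K6) (hKK : K * K6 * σ ≤ 1 / 10 ^ 4) (hKs : K * σ ≤ 1 / 10 ^ 4)
    (hE : 0 < E) (hκ : 0 < κ) (hs : 0 < s) (_hk : 0 < kk) (hv : 0 < v) (hU0 : 0 < U)
    (hU : |U - κ * E| ≤ σ ^ 16 * (κ * E)) (hskk : s * kk = 2 * v) (hv1 : v ≤ 251 / 1000 * ε * U)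
    (hv2 : ε / 4 * (1 + 42 * ε) * U ≤ (1 + σ ^ 38) * (1 + σ ^ 40) * v)
    (hkk : kk ≤ 3 / 4 * κ)
    (hn1 : n1v ≤ K6 * ε * s * kk) (hn2 : n2v ≤ σ ^ 38 * kk)
    (hl1 : |U - κ * E| ≤ K * n1v + σ ^ 38 * (κ * E))
    (hl2 : kk ≤ U / (2 * E) + K * n2v + σ ^ 38 * κ) :
    |U - κ * E| ≤ σ ^ 37 * (κ * E) ∧ ε * (1 + 41 * ε) * E ≤ s := by
  have hε0 : 0 < ε := by rw [hε]; positivity
  have hε1 : ε ≤ 1 / 10 ^ 4 := by rw [hε]; exact e7_small σ hσ hσ1 20 (by norm_num)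
  have h16 := e7_small σ hσ hσ1 16 (by norm_num)
  have hκE : 0 < κ * E := by positivity
  have hUu : U ≤ 1001 / 1000 * (κ * E) := by
    have := (abs_le.1 hU).2
    nlinarith
  have hUl : 999 / 1000 * (κ * E) ≤ U := by
    have := (abs_le.1 hU).1
    nlinarith
  constructor
  · have h1 : K * n1v ≤ K * K6 * (502 / 1000) * ε ^ 2 * U := by
      have h2 : K6 * ε * s * kk = K6 * ε * (2 * v) := by rw [← hskk]; ring
      rw [h2] at hn1
      have h3 : K6 * ε * (2 * v) ≤ K6 * ε * (2 * (251 / 1000 * ε * U)) :=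
        mul_le_mul_of_nonneg_left (by linarith) (by positivity)
      have h4 := mul_le_mul_of_nonneg_left (hn1.trans h3) (by linarith : (0:ℝ) ≤ K)
      nlinarith
    have h5 : K * K6 * (502 / 1000) * ε ^ 2 * U ≤ K * K6 * ε ^ 2 * (κ * E) := by
      have h6 : 0 ≤ K * K6 * ε ^ 2 := by positivity
      nlinarith
    have h7 : K * K6 * ε ^ 2 * (κ * E) ≤ 1 / 10 ^ 4 * σ ^ 37 * (κ * E) := by
      apply mul_le_mul_of_nonneg_right _ hκE.le
      have h8 : K * K6 * ε ^ 2 = (K * K6 * σ) * σ ^ 2 * σ ^ 37 := by rw [hε]; ring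
      rw [h8]
      apply mul_le_mul_of_nonneg_right _ (by positivity)
      have h9 : (K * K6 * σ) * σ ^ 2 ≤ (K * K6 * σ) * 1 := by
        apply mul_le_mul_of_nonneg_left _ (by positivity)
        exact pow_le_one₀ hσ.le (by linarith)
      linarith
    have h10 : σ ^ 38 * (κ * E) ≤ 1 / 10 ^ 4 * σ ^ 37 * (κ * E) := by
      apply mul_le_mul_of_nonneg_right _ hκE.le
      have : σ ^ 38 = σ * σ ^ 37 := by ring
      rw [this]
      exact mul_le_mul_of_nonneg_right hσ1 (by positivity)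
    have h11 : 0 < σ ^ 37 * (κ * E) := by positivity
    nlinarith
  · have hx : K * n2v ≤ K * (σ ^ 38 * (3 / 4 * κ)) := by
      apply mul_le_mul_of_nonneg_left _ (by linarith)
      refine hn2.trans (mul_le_mul_of_nonneg_left hkk (by positivity))
    have h1 : kk ≤ U / (2 * E) + 2 / 10 ^ 4 * σ ^ 37 * κ := by
      have h2 : K * (σ ^ 38 * (3 / 4 * κ)) = (K * σ) * (3 / 4 * (σ ^ 37 * κ)) := by ring
      have h3 : (K * σ) * (3 / 4 * (σ ^ 37 * κ)) ≤ 1 / 10 ^ 4 * (3 / 4 * (σ ^ 37 * κ)) :=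
        mul_le_mul_of_nonneg_right hKs (by positivity)
      have h4 : σ ^ 38 * κ = σ * (σ ^ 37 * κ) := by ring
      have h5 : σ * (σ ^ 37 * κ) ≤ 1 / 10 ^ 4 * (σ ^ 37 * κ) :=
        mul_le_mul_of_nonneg_right hσ1 (by positivity)
      have h6 : 0 < σ ^ 37 * κ := by positivity
      nlinarith
    -- kk * (2E) ≤ U (1 + σ^37/100)
    have h2 : kk * (2 * E) ≤ U * (1 + 1 / 1000 * σ ^ 37) := by
      have h3 := mul_le_mul_of_nonneg_right h1 (by positivity : (0:ℝ) ≤ 2 * E)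
      have h4 : (U / (2 * E) + 2 / 10 ^ 4 * σ ^ 37 * κ) * (2 * E) = U + 4 / 10 ^ 4 * σ ^ 37 * (κ * E) := by
        field_simp; ring
      rw [h4] at h3
      have h5 : 0 < σ ^ 37 := by positivity
      have h6 : 4 / 10 ^ 4 * σ ^ 37 * (κ * E) ≤ 1 / 1000 * σ ^ 37 * U := by
        nlinarith
      nlinarith
    have h3 : ε * (1 + 42 * ε) * E ≤ s * ((1 + 1 / 1000 * σ ^ 37) * ((1 + σ ^ 38) * (1 + σ ^ 40))) := by
      have h4 := mul_le_mul_of_nonneg_left h2 hs.le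
      have h5 : s * (kk * (2 * E)) = 4 * v * E := by
        have : s * (kk * (2 * E)) = (s * kk) * (2 * E) := by ring
        rw [this, hskk]; ring
      rw [h5] at h4
      have h6 := mul_le_mul_of_nonneg_right hv2 (by positivity : (0:ℝ) ≤ 4 * E)
      have h7 := mul_le_mul_of_nonneg_left h4 (by positivity : (0:ℝ) ≤ (1 + σ ^ 38) * (1 + σ ^ 40))
      have h8 : ε * (1 + 42 * ε) * E * U ≤ s * ((1 + 1 / 1000 * σ ^ 37) * ((1 + σ ^ 38) * (1 + σ ^ 40))) * U := by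
        calc ε * (1 + 42 * ε) * E * U = ε / 4 * (1 + 42 * ε) * U * (4 * E) := by ring
          _ ≤ (1 + σ ^ 38) * (1 + σ ^ 40) * v * (4 * E) := h6
          _ = (1 + σ ^ 38) * (1 + σ ^ 40) * (4 * v * E) := by ring
          _ ≤ (1 + σ ^ 38) * (1 + σ ^ 40) * (s * (U * (1 + 1 / 1000 * σ ^ 37))) := h7
          _ = _ := by ring
      exact le_of_mul_le_mul_right h8 hU0
    by_contra hc
    push Not at hc
    have h9 : (1 + 1 / 1000 * σ ^ 37) * ((1 + σ ^ 38) * (1 + σ ^ 40)) ≤ 1 + ε / 100 := by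
      have ha : σ ^ 37 ≤ 1 / 10 ^ 4 * ε := by
        have : σ ^ 37 = σ ^ 17 * ε := by rw [hε]; ring
        rw [this]
        exact mul_le_mul_of_nonneg_right (e7_small σ hσ hσ1 17 (by norm_num)) hε0.le
      have hb : σ ^ 38 ≤ 1 / 10 ^ 4 * ε := by
        have : σ ^ 38 = σ ^ 18 * ε := by rw [hε]; ring
        rw [this]
        exact mul_le_mul_of_nonneg_right (e7_small σ hσ hσ1 18 (by norm_num)) hε0.le
      have hcc : σ ^ 40 ≤ 1 / 10 ^ 4 * ε := by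
        have : σ ^ 40 = σ ^ 20 * ε := by rw [hε]; ring
        rw [this]
        exact mul_le_mul_of_nonneg_right (e7_small σ hσ hσ1 20 (by norm_num)) hε0.le
      have h37 : 0 < σ ^ 37 := by positivity
      have h38 : 0 < σ ^ 38 := by positivity
      have h40 : 0 < σ ^ 40 := by positivity
      exact e7_prod ε _ _ _ hε0 hε1 h37.le h38.le h40.le ha hb hcc
    have h10 : s * ((1 + 1 / 1000 * σ ^ 37) * ((1 + σ ^ 38) * (1 + σ ^ 40))) ≤ s * (1 + ε / 100) :=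
      mul_le_mul_of_nonneg_left h9 hs.le
    have h11 : s * (1 + ε / 100) < ε * (1 + 41 * ε) * E * (1 + ε / 100) :=
      mul_lt_mul_of_pos_right hc (by positivity)
    have h12 : 0 < ε * E := by positivity
    have h13 : ε * (1 + 42 * ε) * E < ε * (1 + 41 * ε) * E * (1 + ε / 100) := by linarith
    have hd : (1 + 41 * ε) * (1 + ε / 100) ≤ (1 + 42 * ε) := by nlinarith
    have h14 := mul_le_mul_of_nonneg_right hd h12.le
    have h15 : ε * (1 + 42 * ε) * E = (1 + 42 * ε) * (ε * E) := by ring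
    have h16' : ε * (1 + 41 * ε) * E * (1 + ε / 100) = (1 + 41 * ε) * (1 + ε / 100) * (ε * E) := by ring
    rw [h15, h16'] at h13
    linarith

end Pool.Agent.Helper36.CV
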