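import Pool.Agent.Helper47.CV.E7a

set_option autoImplicit false

namespace Pool.Agent.Helper36.CV

open Complex Filter Topology MeasureTheory Set

/-- values of the labels next to V from the crude law -/
lemma e7_lw {Hm Hp : ℝ} {C : Set ℝ} (cd : CD Hm Hp C) (e : Edge cd) (ε K E A σ : ℝ) (V : Gap cd)
    (h : EL cd e ε K E A) (hσp : ε ^ (4 / 5 : ℝ) = σ ^ 16) (hσ : 0 < σ) (hσ1 : σ ≤ 1 / 10 ^ 4)
    (hE : V.c - e.c = E) (U : ℝ) (hVN : V.N = e.N + U) (hU0 : 0 < U) (hU1 : U ≤ 1 / 10 ^ 4)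
    (hmu : |V.mu| * U ≤ 1 + 1 / 10 ^ 4) :
    |U - A * Real.sqrt E| ≤ σ ^ 16 * (A * Real.sqrt E) ∧ V.LW (17 / 20 * E) := by
  have hE0 := h.pE
  have hA0 := h.pA
  have hx : |Nf cd V.c - e.N - A * Real.sqrt (V.c - e.c)| ≤ ε ^ (4 / 5 : ℝ) * A * Real.sqrt E :=
    h.cr V.c (by linarith) (by linarith)
  have hNc : Nf cd V.c = V.N := V.lab V.c ⟨by unfold Gap.c; linarith [V.lt], by unfold Gap.c; linarith [V.lt]⟩
  rw [hNc, hVN, hE, hσp] at hx
  have hx' : |U - A * Real.sqrt E| ≤ σ ^ 16 * (A * Real.sqrt E) := by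
    have h1 : e.N + U - e.N - A * Real.sqrt E = U - A * Real.sqrt E := by ring
    rw [h1] at hx
    linarith
  have h16 := e7_small σ hσ hσ1 16 (by norm_num)
  have hsE : 0 < Real.sqrt E := Real.sqrt_pos.2 hE0
  have haE : 0 < A * Real.sqrt E := by positivity
  refine ⟨hx', ?_⟩
  intro t ht
  have ht' := abs_le.1 ht
  have h2 := h.cr t (by linarith) (by linarith)
  rw [hσp] at h2
  have hlo : 38 / 100 * Real.sqrt E ≤ Real.sqrt (t - e.c) := by
    apply Real.le_sqrt_of_sq_le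
    rw [mul_pow, Real.sq_sqrt hE0.le]
    linarith
  have hhi : Real.sqrt (t - e.c) ≤ 137 / 100 * Real.sqrt E := by
    apply Real.sqrt_le_iff.2
    refine ⟨by positivity, ?_⟩
    rw [mul_pow, Real.sq_sqrt hE0.le]
    linarith
  have h3 : |Nf cd t - V.N| ≤ 63 / 100 * (A * Real.sqrt E) := by
    rw [hVN]
    have h4 := abs_le.1 h2
    have h5 := abs_le.1 hx'
    have h6 := mul_le_mul_of_nonneg_left hlo hA0.le
    have h7 := mul_le_mul_of_nonneg_left hhi hA0.le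
    rw [abs_le]
    constructor <;> nlinarith
  have h8 : 999 / 1000 * (A * Real.sqrt E) ≤ U := by
    have h5 := (abs_le.1 hx').1
    nlinarith
  have h9 : |Nf cd t - V.N| ≤ 64 / 100 * U := by nlinarith
  have h10 : 0 ≤ |V.mu| + 1 := by positivity
  calc |Nf cd t - V.N| * (|V.mu| + 1) ≤ 64 / 100 * U * (|V.mu| + 1) := mul_le_mul_of_nonneg_right h9 h10
    _ = 64 / 100 * (|V.mu| * U + U) := by ring
    _ ≤ 9 / 10 := by linarith

/-- lower bound for Y at height E/2 and upper bound for the size -/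
lemma e7_Ylow {Hm Hp : ℝ} {C : Set ℝ} (cd : CD Hm Hp C) (h3 : ST_P3) (e : Edge cd) (ε K E A σ : ℝ) (V : Gap cd)
    (h : EL cd e ε K E A) (hσp : ε ^ (4 / 5 : ℝ) = σ ^ 16) (hε : ε ≤ 1 / 10)
    (hE : V.c - e.c = E) :
    (2428 / 10000 - σ ^ 16) * (A * Real.sqrt E) ≤ Yf cd V.c (E / 2) ∧ Yf cd V.c (E / 2) ≤ (E + V.s) / 2 * V.kk := by
  have hE0 := h.pE
  have hA0 := h.pA
  have hsE : 0 < Real.sqrt E := Real.sqrt_pos.2 hE0
  constructor
  · have h1 := h.im V.c (E / 2) (by linarith) (by linarith) (by nlinarith) (by linarith)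
    rw [hE, hσp] at h1
    have h2 : 1118 / 1000 * E ≤ Real.sqrt (E ^ 2 + (E / 2) ^ 2) := by
      apply Real.le_sqrt_of_sq_le
      nlinarith
    have h4 : 2428 / 10000 * Real.sqrt E ≤ Real.sqrt ((Real.sqrt (E ^ 2 + (E / 2) ^ 2) - E) / 2) := by
      apply Real.le_sqrt_of_sq_le
      rw [mul_pow, Real.sq_sqrt hE0.le]
      linarith
    have h5 := mul_le_mul_of_nonneg_left h4 hA0.le
    have h6 := (abs_le.1 h1).1
    nlinarith
  · obtain ⟨-, -, h1⟩ := h3 Hm Hp C cd V.a V.b V.N V.lt V.lab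
    have h2 := h1 (E / 2) (by linarith)
    have h4 : Yf cd V.c (E / 2) ≤ ‖cd.f (((V.a + V.b) / 2 : ℝ) + ((E / 2 : ℝ) : ℂ) * I) - V.N‖ := by
      have h5 := Complex.abs_im_le_norm (cd.f (((V.a + V.b) / 2 : ℝ) + ((E / 2 : ℝ) : ℂ) * I) - V.N)
      have h6 : (cd.f (((V.a + V.b) / 2 : ℝ) + ((E / 2 : ℝ) : ℂ) * I) - (V.N : ℂ)).im = Yf cd V.c (E / 2) := by
        rw [Complex.sub_im, Complex.ofReal_im, sub_zero]; rfl
      rw [h6] at h5
      exact (le_abs_self _).trans h5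
    refine h4.trans (h2.trans ?_)
    have h7 : KI cd V.a V.b ((V.a + V.b) / 2) = V.kk := rfl
    rw [h7]
    have hs : 0 < V.s := by unfold Gap.s; linarith [V.lt]
    have hk : 0 ≤ V.kk := by
      have : 0 ≤ KI cd V.a V.b V.c := by
        unfold KI
        apply mul_nonneg (by positivity)
        apply integral_nonneg
        intro t
        have := cd.im_nonneg t
        have h9 : 0 ≤ vf cd t := this
        positivity
      exact this
    apply mul_le_mul_of_nonneg_right _ hk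
    apply Real.sqrt_le_iff.2
    refine ⟨by positivity, ?_⟩
    have h8 : V.b - V.a = V.s := rfl
    rw [h8]
    nlinarith

/-- crude lower bound for the size -/
lemma e7_s2 {Hm Hp : ℝ} {C : Set ℝ} (cd : CD Hm Hp C) (h1 : ST_P1) (e : Edge cd) (ε K E A σ K6 U v : ℝ) (V : Gap cd)
    (h : EL cd e ε K E A) (hσp : ε ^ (4 / 5 : ℝ) = σ ^ 16) (hε0 : 0 < ε) (hε : ε * (10 * K6) ≤ 1) (hK6 : 1 ≤ K6)
    (hσ : 0 < σ) (hσ1 : σ ≤ 1 / 10 ^ 4)
    (hσK : K6 * σ ^ 16 ≤ 1 / 10 ^ 4)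
    (hE : V.c - e.c = E) (hU : 999 / 1000 * (A * Real.sqrt E) ≤ U) (hv : 249 / 1000 * ε * U ≤ v) (hv2 : V.s * V.kk = 2 * v)
    (h6 : ∀ r : ℝ, 0 < r → r ≤ V.s / (4 * ε) → V.kk * r ≤ K6 * Yf cd V.c r) :
    4 * ε * E ≤ 5 * K6 * V.s := by
  by_contra hc
  push Not at hc
  have hE0 := h.pE
  have hA0 := h.pA
  have hsE : 0 < Real.sqrt E := Real.sqrt_pos.2 hE0
  have hs : 0 < V.s := by unfold Gap.s; linarith [V.lt]
  have hr0 : 0 < V.s / (4 * ε) := by positivity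
  have h7 := h6 (V.s / (4 * ε)) hr0 le_rfl
  have h8 : V.kk * (V.s / (4 * ε)) = v / (2 * ε) := by
    have : V.kk * (V.s / (4 * ε)) = (V.s * V.kk) / (4 * ε) := by ring
    rw [this, hv2]; field_simp; ring
  rw [h8] at h7
  have h9 : 249 / 2000 * U ≤ v / (2 * ε) := by
    rw [le_div_iff₀ (by positivity)]
    nlinarith
  have hK60 : 0 < K6 := by linarith
  have h10 : V.s / (4 * ε) ≤ E / (5 * K6) := by
    rw [div_le_div_iff₀ (by positivity) (by positivity)]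
    nlinarith
  have hEK : E / (5 * K6) ≤ E := by
    rw [div_le_iff₀ (by positivity)]
    nlinarith
  have h11 : Yf cd V.c (V.s / (4 * ε)) ≤ Yf cd V.c (E / (5 * K6)) := ((h1 Hm Hp C cd).2.2.1 V.c _ _ hr0 h10).2.1
  have h12 := h.im V.c (E / (5 * K6)) (by linarith) (by linarith) (by
    rw [le_div_iff₀ (by positivity)]; nlinarith) hEK
  rw [hE, hσp] at h12
  have h13 : Real.sqrt ((Real.sqrt (E ^ 2 + (E / (5 * K6)) ^ 2) - E) / 2) ≤ Real.sqrt E * (1 / (10 * K6)) := by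
    apply Real.sqrt_le_iff.2
    refine ⟨by positivity, ?_⟩
    rw [mul_pow, Real.sq_sqrt hE0.le]
    have h14 : Real.sqrt (E ^ 2 + (E / (5 * K6)) ^ 2) ≤ E + 2 * (E * (1 / (10 * K6)) ^ 2) := by
      apply Real.sqrt_le_iff.2
      refine ⟨by positivity, ?_⟩
      have h15 : (E / (5 * K6)) ^ 2 = 4 * (E ^ 2 * (1 / (10 * K6)) ^ 2) := by field_simp; ring
      rw [h15]
      have : 0 ≤ (E * (1 / (10 * K6)) ^ 2) ^ 2 := by positivity
      nlinarith
    linarith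
  have h16 := (abs_le.1 h12).2
  have h17 := mul_le_mul_of_nonneg_left h13 hA0.le
  have h18 : Yf cd V.c (E / (5 * K6)) ≤ (A * Real.sqrt E) * (1 / (10 * K6) + σ ^ 16) := by nlinarith
  have h19 : K6 * Yf cd V.c (V.s / (4 * ε)) ≤ (A * Real.sqrt E) * (1 / 10 + K6 * σ ^ 16) := by
    have h20 := mul_le_mul_of_nonneg_left (h11.trans h18) hK60.le
    have h21 : K6 * (A * Real.sqrt E * (1 / (10 * K6) + σ ^ 16)) = (A * Real.sqrt E) * (1 / 10 + K6 * σ ^ 16) := by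
      field_simp
    linarith
  have haE : 0 < A * Real.sqrt E := by positivity
  nlinarith

end Pool.Agent.Helper36.CV
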