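import Pool.Agent.Helper47.CV.E7b

set_option autoImplicit false

namespace Pool.Agent.Helper36.CV

open Complex Filter Topology MeasureTheory Set

lemma e7_log (K6 σ w : ℝ) (hK6 : 1 ≤ K6) (hσ : 0 < σ) (hw : 0 < w) (h : w ≤ K6 / σ ^ 20) :
    σ ^ 20 * Real.log (1 + w) ≤ 2 * K6 * σ ^ 10 := by
  have h1 : 1 + w ≤ (1 + K6 / σ ^ 10) ^ 2 := by
    have h2 : K6 / σ ^ 20 ≤ (K6 / σ ^ 10) ^ 2 := by
      rw [div_pow, ← pow_mul]
      apply div_le_div_of_nonneg_right _ (by positivity)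
      nlinarith
    have h3 : 0 ≤ K6 / σ ^ 10 := by positivity
    nlinarith
  have h4 : Real.log (1 + w) ≤ 2 * (K6 / σ ^ 10) := by
    have h5 : Real.log (1 + w) ≤ Real.log ((1 + K6 / σ ^ 10) ^ 2) := Real.log_le_log (by linarith) h1
    rw [Real.log_pow] at h5
    have h6 : Real.log (1 + K6 / σ ^ 10) ≤ K6 / σ ^ 10 := by
      have := Real.log_le_sub_one_of_pos (show 0 < 1 + K6 / σ ^ 10 by positivity)
      linarith
    push_cast at h5
    linarith
  have h7 := mul_le_mul_of_nonneg_left h4 (by positivity : (0:ℝ) ≤ σ ^ 20)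
  have h8 : σ ^ 20 * (2 * (K6 / σ ^ 10)) = 2 * K6 * σ ^ 10 := by field_simp
  linarith

lemma e7_aux1 (ε a b c : ℝ) (h0 : ε * a ≤ ε * 1) (h1 : ε * b ≤ c) : ε * (1 + a + b) ≤ 2 * ε + c := by
  have : ε * (1 + a + b) = ε + ε * a + ε * b := by ring
  rw [this]; linarith

lemma e7_exp : Real.exp (3 / 20) ≤ 6 / 5 := by
  have h := Real.one_sub_le_exp_neg (3 / 20)
  have h1 : Real.exp (3 / 20) * Real.exp (-(3 / 20)) = 1 := by rw [← Real.exp_add]; simp
  have h2 := Real.exp_pos (3 / 20)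
  nlinarith

lemma e7_kk {Hm Hp : ℝ} {C : Set ℝ} (cd : CD Hm Hp C) (e : Edge cd) (ε K E A σ K3 K6 : ℝ) (V : Gap cd)
    (h : EL cd e ε K E A) (hσp : ε ^ (4 / 5 : ℝ) = σ ^ 16) (hεσ : ε = σ ^ 20) (hσ : 0 < σ) (hσ1 : σ ≤ 1 / 10 ^ 4)
    (hK3 : 1 ≤ K3) (hK6 : 1 ≤ K6) (hKK : K3 * K6 * σ ≤ 1 / 10 ^ 4)
    (hE : V.c - e.c = E) (hs1 : 4 * ε * E ≤ 5 * K6 * V.s) (hk : 0 < V.kk)
    (hq1 : ∀ z ∈ Uo, ‖z - ((V.a + V.b) / 2 : ℝ)‖ ≤ 17 / 20 * E / 4 →
      |((cd.f z - V.N) / qc V.a V.b z).arg| ≤ 3 * ε + ‖z - ((V.a + V.b) / 2 : ℝ)‖ / (17 / 20 * E))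
    (hq3 : ∀ z ∈ Uo, ‖z - ((V.a + V.b) / 2 : ℝ)‖ ≤ 17 / 20 * E / 4 →
      |Real.log ‖(cd.f z - V.N) / qc V.a V.b z‖ - Real.log (KI cd V.a V.b ((V.a + V.b) / 2))| ≤
      K3 * (ε * (1 + Real.log (1 + ‖z - ((V.a + V.b) / 2 : ℝ)‖ / z.im)
        + Real.log (1 + ‖z - ((V.a + V.b) / 2 : ℝ)‖ / (V.b - V.a))) + ‖z - ((V.a + V.b) / 2 : ℝ)‖ / (17 / 20 * E))) :
    V.kk ≤ 3 / 4 * (A / Real.sqrt E) := by
  have hE0 := h.pE
  have hA0 := h.pA
  have hsE : 0 < Real.sqrt E := Real.sqrt_pos.2 hE0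
  have hs : 0 < V.s := by unfold Gap.s; linarith [V.lt]
  have hε0 : 0 < ε := by rw [hεσ]; positivity
  have hε1 : ε ≤ 1 / 10 ^ 4 := by rw [hεσ]; exact e7_small σ hσ hσ1 20 (by norm_num)
  have hK3σ : K3 * σ ≤ 1 / 10 ^ 4 := by
    have : K3 * σ * 1 ≤ K3 * σ * K6 := mul_le_mul_of_nonneg_left hK6 (by positivity)
    nlinarith
  have hK30 : 0 < K3 := by linarith
  obtain ⟨y, hy⟩ : ∃ y : ℝ, y = E / (10 * K3) := ⟨_, rfl⟩
  have hy0 : 0 < y := by rw [hy]; positivity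
  have hyE : y ≤ E / 10 := by
    rw [hy, div_le_div_iff₀ (by positivity) (by norm_num)]
    nlinarith
  have hyε : ε * E ≤ y := by
    rw [hy, le_div_iff₀ (by positivity)]
    have h1 : ε * (10 * K3) ≤ 1 := by
      have h2 : ε = σ * σ ^ 19 := by rw [hεσ]; ring
      have h3 : σ ^ 19 ≤ 1 / 10 ^ 4 := e7_small σ hσ hσ1 19 (by norm_num)
      have h4 : (K3 * σ) * σ ^ 19 ≤ 1 / 10 ^ 4 * (1 / 10 ^ 4) :=
        mul_le_mul hK3σ h3 (by positivity) (by positivity)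
      rw [h2]; nlinarith
    nlinarith
  -- upper bound for Y
  have h12 := h.im V.c y (by linarith) (by linarith) hyε (by linarith)
  rw [hE, hσp] at h12
  have h13 : Real.sqrt ((Real.sqrt (E ^ 2 + y ^ 2) - E) / 2) ≤ y / (2 * Real.sqrt E) := by
    apply Real.sqrt_le_iff.2
    refine ⟨by positivity, ?_⟩
    rw [div_pow, mul_pow, Real.sq_sqrt hE0.le]
    have h14 : Real.sqrt (E ^ 2 + y ^ 2) ≤ E + y ^ 2 / (2 * E) := by
      apply Real.sqrt_le_iff.2
      refine ⟨by positivity, ?_⟩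
      have h15 : (E + y ^ 2 / (2 * E)) ^ 2 = E ^ 2 + y ^ 2 + (y ^ 2 / (2 * E)) ^ 2 := by field_simp; ring
      rw [h15]
      have : 0 ≤ (y ^ 2 / (2 * E)) ^ 2 := by positivity
      linarith
    have h16 : y ^ 2 / (2 * E) / 2 = y ^ 2 / (2 ^ 2 * E) := by rw [div_div]; congr 1; ring
    linarith
  have hT : Yf cd V.c y ≤ A * (y / (2 * Real.sqrt E)) + σ ^ 16 * A * Real.sqrt E := by
    have h16 := (abs_le.1 h12).2
    have h17 := mul_le_mul_of_nonneg_left h13 hA0.le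
    linarith
  -- the point z
  set z : ℂ := (((V.a + V.b) / 2 : ℝ) : ℂ) + (y : ℂ) * I with hz
  have hzim : z.im = y := by simp [hz]
  have hzUo : z ∈ Uo := by
    show 0 < z.im
    rw [hzim]; exact hy0
  have hzn : ‖z - ((V.a + V.b) / 2 : ℝ)‖ = y := by
    have : z - ((V.a + V.b) / 2 : ℝ) = (y : ℂ) * I := by rw [hz]; ring
    rw [this, norm_mul, Complex.norm_I, mul_one, Complex.norm_real, Real.norm_eq_abs, abs_of_pos hy0]
  have harg := hq1 z hzUo (by rw [hzn]; linarith)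
  have hlog := hq3 z hzUo (by rw [hzn]; linarith)
  rw [hzn] at harg hlog
  rw [hzim, div_self hy0.ne'] at hlog
  have hyR : y / (17 / 20 * E) ≤ 12 / 100 * (1 / K3) := by
    rw [hy]
    rw [div_div, div_le_iff₀ (by positivity)]
    have : 12 / 100 * (1 / K3) * (10 * K3 * (17 / 20 * E)) = 102 / 100 * E := by field_simp; ring
    rw [this]; linarith
  have hyR1 : y / (17 / 20 * E) ≤ 12 / 100 := by
    refine hyR.trans ?_
    have : 1 / K3 ≤ 1 := by rw [div_le_iff₀ hK30]; linarith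
    linarith
  set g : ℂ := (cd.f z - V.N) / qc V.a V.b z with hg
  set r := Real.sqrt (y ^ 2 + (V.b - V.a) ^ 2 / 4) with hr
  have hqc : qc V.a V.b z = (r : ℂ) * I := e7_qc V.a V.b y V.lt hy0
  have hr0 : 0 < r := Real.sqrt_pos.2 (by positivity)
  have hry : y ≤ r := by
    apply Real.le_sqrt_of_sq_le
    have : 0 ≤ (V.b - V.a) ^ 2 / 4 := by positivity
    linarith
  have hfz : cd.f z - V.N = g * ((r : ℂ) * I) := by
    rw [hg, hqc, div_mul_cancel₀]
    exact mul_ne_zero (Complex.ofReal_ne_zero.2 hr0.ne') Complex.I_ne_zero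
  have hTz : Yf cd V.c y = (cd.f z).im := rfl
  have hTg : Yf cd V.c y = r * g.re := by
    rw [hTz]
    have h1 : (cd.f z - V.N).im = (cd.f z).im := by rw [Complex.sub_im, Complex.ofReal_im, sub_zero]
    rw [← h1, hfz]
    simp [Complex.mul_im, Complex.mul_re]
    ring
  have hcos : 98 / 100 ≤ Real.cos g.arg := by
    have h1 := Real.one_sub_sq_div_two_le_cos (x := g.arg)
    have h2 : |g.arg| ≤ 1 / 5 := by linarith
    have h3 : g.arg ^ 2 ≤ (1 / 5) ^ 2 := by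
      rw [← sq_abs]
      exact pow_le_pow_left₀ (abs_nonneg _) h2 2
    linarith
  have hre : 98 / 100 * ‖g‖ ≤ g.re := by
    rw [← Complex.norm_mul_cos_arg g]
    have := mul_le_mul_of_nonneg_left hcos (norm_nonneg g)
    linarith
  have hTpos : 0 < Yf cd V.c y := by rw [hTz]; exact cd.im_pos z (by rw [hzim]; exact hy0)
  have hgre : 0 < g.re := by
    rw [hTg] at hTpos
    exact pos_of_mul_pos_right hTpos hr0.le
  have hgn : 0 < ‖g‖ := lt_of_lt_of_le hgre (Complex.re_le_norm g)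
  have hgb : y * ‖g‖ ≤ 102 / 98 * Yf cd V.c y := by
    rw [hTg]
    have h1 : y * ‖g‖ ≤ r * ‖g‖ := mul_le_mul_of_nonneg_right hry hgn.le
    have h2 := mul_le_mul_of_nonneg_left hre hr0.le
    have h3 : 0 < r * g.re := by positivity
    linarith
  have hgb2 : ‖g‖ ≤ 53 / 100 * (A / Real.sqrt E) := by
    have h1 : y * ‖g‖ ≤ y * (53 / 100 * (A / Real.sqrt E)) := by
      refine hgb.trans ?_
      have h2 : A * Real.sqrt E = y * (10 * K3) * (A / Real.sqrt E) := by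
        rw [hy]
        field_simp
        rw [Real.sq_sqrt hE0.le]
      have h3 : A * (y / (2 * Real.sqrt E)) = y * (1 / 2) * (A / Real.sqrt E) := by field_simp
      have h4 : σ ^ 16 * A * Real.sqrt E = y * (A / Real.sqrt E) * (10 * (K3 * σ ^ 16)) := by
        have : σ ^ 16 * A * Real.sqrt E = σ ^ 16 * (A * Real.sqrt E) := by ring
        rw [this, h2]; ring
      rw [h3, h4] at hT
      have h5 : K3 * σ ^ 16 ≤ 1 / 10 ^ 4 := by
        have h6 : K3 * σ ^ 16 = (K3 * σ) * σ ^ 15 := by ring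
        rw [h6]
        have h7 : (K3 * σ) * σ ^ 15 ≤ (K3 * σ) * 1 :=
          mul_le_mul_of_nonneg_left (pow_le_one₀ hσ.le (by linarith)) (by positivity)
        linarith
      have h8 : 0 < y * (A / Real.sqrt E) := by positivity
      have h9 : y * (A / Real.sqrt E) * (10 * (K3 * σ ^ 16)) ≤ y * (A / Real.sqrt E) * (1 / 10 ^ 3) :=
        mul_le_mul_of_nonneg_left (by linarith) h8.le
      linarith
    exact le_of_mul_le_mul_left h1 hy0
  have hyK6 : y / (V.b - V.a) ≤ K6 / σ ^ 20 := by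
    rw [← hεσ]
    have hs' : V.b - V.a = V.s := rfl
    rw [hs', div_le_div_iff₀ hs hε0]
    have h1 : y * ε * (40 * K3) = 4 * ε * E := by rw [hy]; field_simp; ring
    have h2 : y * ε * (40 * K3) ≤ 5 * K6 * V.s := by rw [h1]; exact hs1
    have h3 : 0 < y * ε := by positivity
    have h4 : y * ε * 40 ≤ y * ε * (40 * K3) := mul_le_mul_of_nonneg_left (by linarith) h3.le
    have h5 : 0 < K6 * V.s := by positivity
    linarith
  have hyp : 0 < y / (V.b - V.a) := by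
    have hs' : V.b - V.a = V.s := rfl
    rw [hs']; positivity
  have hl1 := e7_log K6 σ _ hK6 hσ hyp hyK6
  have hl2 : Real.log (1 + 1) ≤ 1 := by
    have := Real.log_le_sub_one_of_pos (show (0:ℝ) < 1 + 1 by norm_num)
    linarith
  have hδ : K3 * (ε * (1 + Real.log (1 + 1) + Real.log (1 + y / (V.b - V.a))) + y / (17 / 20 * E)) ≤ 3 / 20 := by
    have h1 : ε * (1 + Real.log (1 + 1) + Real.log (1 + y / (V.b - V.a))) ≤ 2 * ε + 2 * K6 * σ ^ 10 := by
      rw [← hεσ] at hl1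
      have h0 := mul_le_mul_of_nonneg_left hl2 hε0.le
      exact e7_aux1 _ _ _ _ h0 hl1
    have h2 : K3 * (2 * ε + 2 * K6 * σ ^ 10) ≤ 1 / 10 ^ 3 := by
      have h3 : K3 * (2 * ε + 2 * K6 * σ ^ 10) = 2 * ((K3 * σ) * σ ^ 19) + 2 * ((K3 * K6 * σ) * σ ^ 9) := by
        rw [hεσ]; ring
      rw [h3]
      have h4 : (K3 * σ) * σ ^ 19 ≤ (K3 * σ) * 1 :=
        mul_le_mul_of_nonneg_left (pow_le_one₀ hσ.le (by linarith)) (by positivity)
      have h5 : (K3 * K6 * σ) * σ ^ 9 ≤ (K3 * K6 * σ) * 1 :=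
        mul_le_mul_of_nonneg_left (pow_le_one₀ hσ.le (by linarith)) (by positivity)
      linarith
    have h6 : K3 * (y / (17 / 20 * E)) ≤ 12 / 100 := by
      have h7 := mul_le_mul_of_nonneg_left hyR hK30.le
      have h8 : K3 * (12 / 100 * (1 / K3)) = 12 / 100 := by field_simp
      linarith
    have h9 := mul_le_mul_of_nonneg_left h1 hK30.le
    rw [mul_add]
    linarith
  have hkk : Real.log V.kk ≤ Real.log ‖g‖ + 3 / 20 := by
    have h1 := (abs_le.1 (hlog.trans hδ)).1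
    have h2 : KI cd V.a V.b ((V.a + V.b) / 2) = V.kk := rfl
    rw [h2] at h1
    linarith
  have hkk2 : V.kk ≤ ‖g‖ * (6 / 5) := by
    have h1 : V.kk = Real.exp (Real.log V.kk) := (Real.exp_log hk).symm
    rw [h1]
    calc Real.exp (Real.log V.kk) ≤ Real.exp (Real.log ‖g‖ + 3 / 20) := Real.exp_le_exp.2 hkk
      _ = ‖g‖ * Real.exp (3 / 20) := by rw [Real.exp_add, Real.exp_log hgn]
      _ ≤ ‖g‖ * (6 / 5) := mul_le_mul_of_nonneg_left e7_exp hgn.le
  have hAE : 0 < A / Real.sqrt E := by positivity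
  linarith

end Pool.Agent.Helper36.CV
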